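import Pool.Agent.Helper51.CP.Defs

/-!
# MP_a3eb37_an, module ALF: the Crouzeix-Palencia companion of a function of `Alg` is in `Alg`
-/

namespace Pool.Agent.Helper78.CP

open Complex MeasureTheory Set Filter Topology
open scoped BoundedContinuousFunction
open Pool.Agent.Helper51.CP Pool.Agent.Helper51.CP.CPoly

noncomputable section

variable (P : CPoly)

/-! ### Basic facts -/

theorem crs_add (a b c : ℂ) : crs a (b + c) = crs a b + crs a c := by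
  simp only [crs, mul_add, Complex.add_im]

theorem crs_sub (a b c : ℂ) : crs a (b - c) = crs a b - crs a c := by
  simp only [crs, mul_sub, Complex.sub_im]

theorem crs_real_mul (a b : ℂ) (t : ℝ) : crs a ((t : ℂ) * b) = t * crs a b := by
  simp only [crs, Complex.mul_im, Complex.mul_re, Complex.ofReal_im, Complex.ofReal_re,
    Complex.conj_re, Complex.conj_im]
  ring

theorem crs_self (a : ℂ) : crs a a = 0 := by
  simp only [crs, Complex.mul_im, Complex.conj_re, Complex.conj_im]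
  ring

theorem abs_crs_le (a b : ℂ) : |crs a b| ≤ ‖a‖ * ‖b‖ := by
  refine (Complex.abs_im_le_norm _).trans ?_
  rw [norm_mul, Complex.norm_conj]

theorem cont_gm : Continuous P.gm := by
  unfold CPoly.gm CPoly.side
  fun_prop

theorem cont_dr : Continuous P.dr := by
  unfold CPoly.dr CPoly.side
  fun_prop

theorem fin_ds : IsFiniteMeasure P.ds := by
  have h1 : IsFiniteMeasure (Measure.comap Subtype.val (volume : Measure ℝ) :
      Measure (Set.Ioo (0 : ℝ) 1)) := by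
    constructor
    rw [comap_subtype_coe_apply measurableSet_Ioo, Set.image_univ, Subtype.range_coe,
      Real.volume_Ioo]
    exact ENNReal.ofReal_lt_top
  unfold CPoly.ds
  infer_instance

theorem crs_gm_self (x : P.X) : crs (P.side x.1) (P.gm x - P.v x.1) = 0 := by
  rw [CPoly.gm, add_sub_cancel_left, crs_real_mul, crs_self, mul_zero]

theorem crs_gm_nonneg (x : P.X) (j : ℕ) (hj : j < P.N) : 0 ≤ crs (P.side j) (P.gm x - P.v j) := by
  have h1 := P.left j hj x.1 x.1.2.le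
  have h2 := P.left j hj (x.1 + 1) x.1.2
  have h3 : P.gm x - P.v j = ((1 - (x.2 : ℝ) : ℝ) : ℂ) * (P.v x.1 - P.v j) +
      ((x.2 : ℝ) : ℂ) * (P.v (x.1 + 1) - P.v j) := by
    rw [CPoly.gm, CPoly.side]
    push_cast
    ring
  have h4 := x.2.2
  rw [h3, crs_add, crs_real_mul, crs_real_mul]
  exact add_nonneg (mul_nonneg (sub_nonneg.2 h4.2.le) h1) (mul_nonneg h4.1.le h2)

/-- the contracted point -/
def zr (r : ℝ) (b : P.X) : ℂ := P.z0 + (r : ℂ) * (P.gm b - P.z0)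

theorem crs_zr (r : ℝ) (b : P.X) (j : ℕ) : crs (P.side j) (zr P r b - P.v j) =
    (1 - r) * crs (P.side j) (P.z0 - P.v j) + r * crs (P.side j) (P.gm b - P.v j) := by
  have h : zr P r b - P.v j = ((1 - r : ℝ) : ℂ) * (P.z0 - P.v j) +
      (r : ℂ) * (P.gm b - P.v j) := by
    rw [zr]
    push_cast
    ring
  rw [h, crs_add, crs_real_mul, crs_real_mul]

theorem zr_int {r : ℝ} (h0 : 0 ≤ r) (h1 : r < 1) (b : P.X) : P.Int (zr P r b) := by
  intro j hj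
  rw [crs_zr]
  have h2 := mul_pos (sub_pos.2 h1) (P.inside j hj)
  have h3 := mul_nonneg h0 (crs_gm_nonneg P b j hj)
  exact add_pos_of_pos_of_nonneg h2 h3

theorem exists_m : ∃ m : ℝ, 0 < m ∧ ∀ j, j < P.N → m ≤ crs (P.side j) (P.z0 - P.v j) := by
  have hne : (Finset.range P.N).Nonempty := Finset.nonempty_range_iff.2 P.npos.ne'
  refine ⟨(Finset.range P.N).inf' hne (fun j => crs (P.side j) (P.z0 - P.v j)), ?_, ?_⟩
  · rw [Finset.lt_inf'_iff]
    exact fun j hj => P.inside j (Finset.mem_range.1 hj)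
  · exact fun j hj => Finset.inf'_le _ (Finset.mem_range.2 hj)

theorem exists_S : ∃ S : ℝ, 0 < S ∧ ∀ j, j < P.N → ‖P.side j‖ ≤ S := by
  refine ⟨(∑ j ∈ Finset.range P.N, ‖P.side j‖) + 1, ?_, fun j hj => ?_⟩
  · exact add_pos_of_nonneg_of_pos (Finset.sum_nonneg (fun _ _ => norm_nonneg _)) one_pos
  · have := Finset.single_le_sum (f := fun j => ‖P.side j‖) (fun i _ => norm_nonneg _)
      (Finset.mem_range.2 hj)
    linarith

theorem exists_D : ∃ D : ℝ, 0 < D ∧ ‖P.z0‖ ≤ D ∧ ∀ x, ‖P.gm x‖ ≤ D := by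
  refine ⟨‖P.z0‖ + ‖P.gmB‖ + 1, by positivity, ?_, fun x => ?_⟩
  · linarith [norm_nonneg P.gmB]
  · have := P.gmB.norm_coe_le_norm x
    rw [gmB_apply] at this
    linarith [norm_nonneg P.z0]

/-- lower bound for the distance to the contracted points -/
theorem exists_low : ∃ δ : ℝ, 0 < δ ∧ ∀ r : ℝ, 0 ≤ r → r < 1 → ∀ b x : P.X,
    (1 - r) * δ ≤ ‖P.gm x - zr P r b‖ := by
  obtain ⟨m, hm, hm'⟩ := exists_m P
  obtain ⟨S, hS, hS'⟩ := exists_S P
  refine ⟨m / S, by positivity, fun r h0 h1 b x => ?_⟩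
  have e1 : crs (P.side x.1) (zr P r b - P.gm x) =
      crs (P.side x.1) (zr P r b - P.v x.1) := by
    have : zr P r b - P.gm x = (zr P r b - P.v x.1) - (P.gm x - P.v x.1) := by ring
    rw [this, crs_sub, crs_gm_self, sub_zero]
  have e2 : (1 - r) * m ≤ crs (P.side x.1) (zr P r b - P.gm x) := by
    rw [e1, crs_zr]
    have h2 := mul_le_mul_of_nonneg_left (hm' x.1 x.1.2) (sub_pos.2 h1).le
    have h3 := mul_nonneg h0 (crs_gm_nonneg P b x.1 x.1.2)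
    linarith
  have e3 := (le_abs_self _).trans (abs_crs_le (P.side x.1) (zr P r b - P.gm x))
  have e4 : ‖P.side x.1‖ * ‖zr P r b - P.gm x‖ ≤ S * ‖P.gm x - zr P r b‖ := by
    rw [norm_sub_rev (P.gm x)]
    exact mul_le_mul_of_nonneg_right (hS' x.1 x.1.2) (norm_nonneg _)
  rw [mul_div_assoc', div_le_iff₀ hS]
  linarith

/-! ### Runge -/

instance : CompleteSpace P.Alg :=
  (Subalgebra.isClosed_topologicalClosure _).completeSpace_coe

theorem inv_mem (w a : ℂ) (q : ℝ) (hq : q < 1) (hwa : w ≠ a)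
    (h : ∀ b : P.X, ‖P.gm b - a‖ ≤ q * ‖w - a‖) :
    ∃ u : P.Alg, ∀ b : P.X, (u : P.X →ᵇ ℂ) b = (w - P.gm b)⁻¹ := by
  have hwa' : w - a ≠ 0 := sub_ne_zero.2 hwa
  have hn : 0 < ‖w - a‖ := norm_pos_iff.2 hwa'
  let gA : P.Alg := ⟨P.gmB, P.gmB_mem⟩
  let y : P.Alg := (w - a)⁻¹ • (gA - algebraMap ℂ P.Alg a)
  have hy : ∀ b : P.X, (y : P.X →ᵇ ℂ) b = (w - a)⁻¹ * (P.gm b - a) := fun b => rfl
  have hyn : ‖y‖ < 1 := by
    refine lt_of_le_of_lt ?_ (max_lt hq one_pos)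
    show ‖(y : P.X →ᵇ ℂ)‖ ≤ max q 0
    rw [BoundedContinuousFunction.norm_le (le_max_right _ _)]
    intro b
    rw [hy, norm_mul, norm_inv, inv_mul_le_iff₀ hn]
    have h1 := h b
    have h2 : q * ‖w - a‖ ≤ max q 0 * ‖w - a‖ :=
      mul_le_mul_of_nonneg_right (le_max_left _ _) hn.le
    linarith
  let t := Units.oneSub y hyn
  refine ⟨(w - a)⁻¹ • (↑(t⁻¹) : P.Alg), fun b => ?_⟩
  have h1 : (↑t : P.Alg) * ↑(t⁻¹) = 1 := t.mul_inv
  have h2 : (↑t : P.Alg) = 1 - y := rfl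
  rw [h2] at h1
  have h3 : ((1 - y : P.Alg) * ↑(t⁻¹) : P.Alg) = 1 := h1
  have h4 := congrArg (fun z : P.Alg => (z : P.X →ᵇ ℂ) b) h3
  have h5 : (1 - (w - a)⁻¹ * (P.gm b - a)) * ((↑(t⁻¹) : P.Alg) : P.X →ᵇ ℂ) b = 1 := h4
  show (w - a)⁻¹ * ((↑(t⁻¹) : P.Alg) : P.X →ᵇ ℂ) b = (w - P.gm b)⁻¹
  have h6 : (1 - (w - a)⁻¹ * (P.gm b - a)) = (w - a)⁻¹ * (w - P.gm b) := by
    field_simp
    ring
  rw [h6] at h5
  have h7 : w - P.gm b ≠ 0 := by
    intro h8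
    rw [h8, mul_zero, zero_mul] at h5
    exact zero_ne_one h5
  refine eq_inv_of_mul_eq_one_left ?_
  calc (w - a)⁻¹ * ((↑(t⁻¹) : P.Alg) : P.X →ᵇ ℂ) b * (w - P.gm b) =
      (w - a)⁻¹ * (w - P.gm b) * ((↑(t⁻¹) : P.Alg) : P.X →ᵇ ℂ) b := by ring
    _ = 1 := h5

theorem normSq_shift (c σ : ℂ) (L : ℝ) :
    ‖c - (L : ℂ) * (I * σ)‖ ^ 2 = ‖c‖ ^ 2 - 2 * L * crs σ c + L ^ 2 * ‖σ‖ ^ 2 := by
  simp only [← Complex.normSq_eq_norm_sq, Complex.normSq_apply, crs, Complex.sub_re,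
    Complex.sub_im, Complex.mul_re, Complex.mul_im, Complex.I_re, Complex.I_im,
    Complex.ofReal_re, Complex.ofReal_im, Complex.conj_re, Complex.conj_im]
  ring

theorem exists_aq {r : ℝ} (h0 : 0 < r) (h1 : r < 1) (x : P.X) :
    ∃ (a : ℂ) (q : ℝ), q < 1 ∧ P.z0 + (r : ℂ)⁻¹ * (P.gm x - P.z0) ≠ a ∧
      ∀ b : P.X, ‖P.gm b - a‖ ≤ q * ‖P.z0 + (r : ℂ)⁻¹ * (P.gm x - P.z0) - a‖ := by
  obtain ⟨D, hD, -, hD'⟩ := exists_D P
  set w : ℂ := P.z0 + (r : ℂ)⁻¹ * (P.gm x - P.z0) with hw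
  set σ : ℂ := P.side x.1 with hσ
  have hin := P.inside x.1 x.1.2
  set κ : ℝ := (r⁻¹ - 1) * crs σ (P.z0 - P.v x.1) with hκ
  have hr : 1 < r⁻¹ := (one_lt_inv₀ h0).2 h1
  have hκ0 : 0 < κ := mul_pos (sub_pos.2 hr) hin
  have hcw : crs σ (w - P.gm x) = -κ := by
    have e : w - P.gm x = (((1 - r⁻¹ : ℝ) : ℂ)) * (P.z0 - P.v x.1) -
        (((1 - r⁻¹ : ℝ) : ℂ)) * (P.gm x - P.v x.1) := by
      rw [hw]; push_cast; ring
    rw [e, crs_sub, crs_real_mul, crs_real_mul, crs_gm_self, hκ]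
    ring
  set L : ℝ := (4 * D ^ 2 + 1) / (2 * κ) with hL
  have hL0 : 0 < L := by positivity
  have hLκ : 2 * L * κ = 4 * D ^ 2 + 1 := by
    rw [hL]; field_simp
  set a : ℂ := P.gm x + (L : ℂ) * (I * σ) with ha
  set Q1 : ℝ := 4 * D ^ 2 + L ^ 2 * ‖σ‖ ^ 2 with hQ1
  have hQ0 : 0 < Q1 := by positivity
  have hb : ∀ b : P.X, ‖P.gm b - a‖ ^ 2 ≤ Q1 := by
    intro b
    have e : P.gm b - a = (P.gm b - P.gm x) - (L : ℂ) * (I * σ) := by rw [ha]; ring
    rw [e, normSq_shift]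
    have e1 : 0 ≤ crs σ (P.gm b - P.gm x) := by
      have : P.gm b - P.gm x = (P.gm b - P.v x.1) - (P.gm x - P.v x.1) := by ring
      rw [this, crs_sub, crs_gm_self, sub_zero]
      exact crs_gm_nonneg P b x.1 x.1.2
    have e2 : ‖P.gm b - P.gm x‖ ≤ 2 * D := by
      refine (norm_sub_le _ _).trans ?_
      linarith [hD' b, hD' x]
    have e3 : ‖P.gm b - P.gm x‖ ^ 2 ≤ (2 * D) ^ 2 := pow_le_pow_left₀ (norm_nonneg _) e2 2
    have e4 : 0 ≤ 2 * L * crs σ (P.gm b - P.gm x) := by positivity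
    rw [hQ1]
    nlinarith
  have hwa : Q1 + 1 ≤ ‖w - a‖ ^ 2 := by
    have e : w - a = (w - P.gm x) - (L : ℂ) * (I * σ) := by rw [ha]; ring
    rw [e, normSq_shift, hcw]
    have e1 : 0 ≤ ‖w - P.gm x‖ ^ 2 := by positivity
    rw [hQ1]
    nlinarith
  refine ⟨a, Real.sqrt (Q1 / (Q1 + 1)), ?_, ?_, fun b => ?_⟩
  · rw [Real.sqrt_lt' one_pos, one_pow, div_lt_one (by positivity)]
    linarith
  · intro h
    rw [h, sub_self, norm_zero] at hwa
    norm_num at hwa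
    linarith
  · have e1 : ‖P.gm b - a‖ ≤ Real.sqrt Q1 := Real.le_sqrt_of_sq_le (hb b)
    have e2 : Real.sqrt (Q1 + 1) ≤ ‖w - a‖ := by
      rw [Real.sqrt_le_left (norm_nonneg _)]
      exact hwa
    have e3 : Real.sqrt Q1 = Real.sqrt (Q1 / (Q1 + 1)) * Real.sqrt (Q1 + 1) := by
      rw [← Real.sqrt_mul (by positivity), div_mul_cancel₀ _ (by positivity)]
    rw [e3] at e1
    exact e1.trans (mul_le_mul_of_nonneg_left e2 (Real.sqrt_nonneg _))

theorem exists_U {r : ℝ} (h0 : 0 < r) (h1 : r < 1) :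
    ∃ U : P.X → P.Alg, Continuous U ∧ (∃ C, ∀ x, ‖U x‖ ≤ C) ∧
      ∀ x b, ((U x : P.Alg) : P.X →ᵇ ℂ) b = (P.gm x - zr P r b)⁻¹ := by
  have hr : (r : ℂ) ≠ 0 := by exact_mod_cast h0.ne'
  have h2 : ∀ x : P.X, ∃ u : P.Alg, ∀ b : P.X, (u : P.X →ᵇ ℂ) b = (P.gm x - zr P r b)⁻¹ := by
    intro x
    obtain ⟨a, q, hq, hwa, h⟩ := exists_aq P h0 h1 x
    obtain ⟨u, hu⟩ := inv_mem P _ a q hq hwa h
    refine ⟨(r : ℂ)⁻¹ • u, fun b => ?_⟩
    show (r : ℂ)⁻¹ * (u : P.X →ᵇ ℂ) b = _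
    rw [hu, ← mul_inv, zr]
    congr 1
    field_simp
    ring
  choose U hU using h2
  obtain ⟨δ, hδ, hlow⟩ := exists_low P
  have hd : 0 < (1 - r) * δ := mul_pos (sub_pos.2 h1) hδ
  have hlow' := fun b x => hlow r h0.le h1 b x
  have hne : ∀ x b, P.gm x - zr P r b ≠ 0 := fun x b =>
    norm_pos_iff.1 (lt_of_lt_of_le hd (hlow' b x))
  have hbd : ∀ x, ‖U x‖ ≤ ((1 - r) * δ)⁻¹ := by
    intro x
    show ‖((U x : P.Alg) : P.X →ᵇ ℂ)‖ ≤ _
    rw [BoundedContinuousFunction.norm_le (by positivity)]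
    intro b
    rw [hU, norm_inv]
    exact inv_anti₀ hd (hlow' b x)
  refine ⟨U, ?_, ⟨_, hbd⟩, hU⟩
  have hlip : ∀ x y, ‖U y - U x‖ ≤ ‖P.gm y - P.gm x‖ * (((1 - r) * δ)⁻¹ * ((1 - r) * δ)⁻¹) := by
    intro x y
    show ‖((U y : P.Alg) : P.X →ᵇ ℂ) - ((U x : P.Alg) : P.X →ᵇ ℂ)‖ ≤ _
    rw [BoundedContinuousFunction.norm_le (by positivity)]
    intro b
    rw [BoundedContinuousFunction.sub_apply, hU, hU, inv_sub_inv (hne y b) (hne x b), norm_div,
      norm_mul, div_eq_mul_inv, mul_inv]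
    have e : P.gm x - zr P r b - (P.gm y - zr P r b) = -(P.gm y - P.gm x) := by ring
    rw [e, norm_neg]
    exact mul_le_mul_of_nonneg_left (mul_le_mul (inv_anti₀ hd (hlow' b y))
      (inv_anti₀ hd (hlow' b x)) (by positivity) (by positivity)) (norm_nonneg _)
  rw [continuous_iff_continuousAt]
  intro x
  rw [ContinuousAt, tendsto_iff_norm_sub_tendsto_zero]
  refine squeeze_zero (fun _ => norm_nonneg _) (fun y => hlip x y) ?_
  have h3 : Tendsto (fun y => ‖P.gm y - P.gm x‖) (𝓝 x) (𝓝 0) := by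
    have := (cont_gm P).continuousAt (x := x)
    rw [ContinuousAt, tendsto_iff_norm_sub_tendsto_zero] at this
    exact this
  have h4 := h3.mul_const (((1 - r) * δ)⁻¹ * ((1 - r) * δ)⁻¹)
  rwa [zero_mul] at h4

/-! ### Measurability and integrability on the boundary -/

instance : OpensMeasurableSpace P.X := by
  have h1 : OpensMeasurableSpace (Fin P.N) := ⟨le_top⟩
  infer_instance

theorem int_of_cont {E : Type*} [NormedAddCommGroup E] {f : P.X → E} (hf : Continuous f)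
    {C : ℝ} (hC : ∀ x, ‖f x‖ ≤ C) : Integrable f P.ds := by
  have := fin_ds P
  exact Integrable.of_bound hf.aestronglyMeasurable C (Eventually.of_forall hC)

/-! ### The Cauchy kernel at interior points -/

theorem cau_complex (z : ℂ) (φ : P.X → ℂ) :
    P.Cau z φ = (2 * Real.pi * I : ℂ)⁻¹ * ∫ x, φ x * (P.dr x / (P.gm x - z)) ∂P.ds := by
  unfold CPoly.Cau
  rw [smul_eq_mul]
  congr 1
  refine integral_congr_ae (Eventually.of_forall (fun x => ?_))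
  simp only [Algebra.algebraMap_self, RingHom.id_apply, Ring.inverse_eq_inv', smul_eq_mul]
  ring

theorem exists_Sdr : ∃ S : ℝ, 0 < S ∧ ∀ x, ‖P.dr x‖ ≤ S := by
  obtain ⟨S, hS, hS'⟩ := exists_S P
  exact ⟨S, hS, fun x => hS' x.1 x.1.2⟩

theorem w_cont {r : ℝ} (h0 : 0 ≤ r) (h1 : r < 1) (b : P.X) :
    Continuous (fun x => P.dr x / (P.gm x - zr P r b)) := by
  obtain ⟨δ, hδ, hlow⟩ := exists_low P
  have hd : 0 < (1 - r) * δ := mul_pos (sub_pos.2 h1) hδ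
  refine (cont_dr P).div ((cont_gm P).sub continuous_const) (fun x => ?_)
  exact norm_pos_iff.1 (lt_of_lt_of_le hd (hlow r h0 h1 b x))

theorem w_bdd {r : ℝ} (h0 : 0 ≤ r) (h1 : r < 1) (b : P.X) :
    ∃ C, ∀ x, ‖P.dr x / (P.gm x - zr P r b)‖ ≤ C := by
  obtain ⟨δ, hδ, hlow⟩ := exists_low P
  obtain ⟨S, hS, hS'⟩ := exists_Sdr P
  have hd : 0 < (1 - r) * δ := mul_pos (sub_pos.2 h1) hδ
  refine ⟨S / ((1 - r) * δ), fun x => ?_⟩
  rw [norm_div]
  exact div_le_div₀ hS.le (hS' x) hd (hlow r h0 h1 b x)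

theorem ker_eq (w : ℂ) (x : P.X) : P.ker w x = (P.dr x / (P.gm x - w)).im / Real.pi := rfl

theorem int_phi_w {r : ℝ} (h0 : 0 ≤ r) (h1 : r < 1) (b : P.X) (φ : P.X →ᵇ ℂ) :
    Integrable (fun x => φ x * (P.dr x / (P.gm x - zr P r b))) P.ds := by
  obtain ⟨C, hC⟩ := w_bdd P h0 h1 b
  refine int_of_cont P (φ.continuous.mul (w_cont P h0 h1 b)) (C := ‖φ‖ * C) (fun x => ?_)
  rw [norm_mul]
  exact mul_le_mul (φ.norm_coe_le_norm x) (hC x) (norm_nonneg _) (norm_nonneg _)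

theorem int_phi_ker {r : ℝ} (h0 : 0 ≤ r) (h1 : r < 1) (b : P.X) (φ : P.X →ᵇ ℂ) :
    Integrable (fun x => φ x * ((P.ker (zr P r b) x : ℝ) : ℂ)) P.ds := by
  obtain ⟨C, hC⟩ := w_bdd P h0 h1 b
  refine int_of_cont P (φ.continuous.mul (Complex.continuous_ofReal.comp
    ((Complex.continuous_im.comp (w_cont P h0 h1 b)).div_const _))) (C := ‖φ‖ * (C / Real.pi))
    (fun x => ?_)
  rw [norm_mul]
  refine mul_le_mul (φ.norm_coe_le_norm x) ?_ (norm_nonneg _) (norm_nonneg _)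
  rw [Complex.norm_real, ker_eq, norm_div, Real.norm_eq_abs, Real.norm_eq_abs,
    abs_of_pos Real.pi_pos]
  exact div_le_div_of_nonneg_right ((Complex.abs_im_le_norm _).trans (hC x)) Real.pi_pos.le

theorem cau_conj_add {r : ℝ} (h0 : 0 ≤ r) (h1 : r < 1) (b : P.X) (φ : P.X →ᵇ ℂ) :
    (starRingEnd ℂ) (P.Cau (zr P r b) (fun x => (starRingEnd ℂ) (φ x))) +
      P.Cau (zr P r b) φ = ∫ x, φ x * ((P.ker (zr P r b) x : ℝ) : ℂ) ∂P.ds := by
  rw [cau_complex, cau_complex, map_mul, ← integral_conj]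
  have h2 : (starRingEnd ℂ) ((2 * Real.pi * I : ℂ)⁻¹) = -(2 * Real.pi * I : ℂ)⁻¹ := by
    rw [map_inv₀, map_mul, map_mul, Complex.conj_I, Complex.conj_ofReal, map_ofNat, mul_neg,
      inv_neg]
  rw [h2]
  have h3 : ∀ x, (starRingEnd ℂ) ((starRingEnd ℂ) (φ x) * (P.dr x / (P.gm x - zr P r b))) =
      φ x * (starRingEnd ℂ) (P.dr x / (P.gm x - zr P r b)) := fun x => by
    rw [map_mul, Complex.conj_conj]
  simp_rw [h3]
  have hi1 : Integrable (fun x => φ x * (starRingEnd ℂ) (P.dr x / (P.gm x - zr P r b))) P.ds := by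
    obtain ⟨C, hC⟩ := w_bdd P h0 h1 b
    refine int_of_cont P (φ.continuous.mul (Complex.continuous_conj.comp (w_cont P h0 h1 b)))
      (C := ‖φ‖ * C) (fun x => ?_)
    rw [norm_mul, Complex.norm_conj]
    exact mul_le_mul (φ.norm_coe_le_norm x) (hC x) (norm_nonneg _) (norm_nonneg _)
  rw [neg_mul, neg_add_eq_sub, ← mul_sub, ← integral_sub (int_phi_w P h0 h1 b φ) hi1,
    ← integral_const_mul]
  refine integral_congr_ae (Eventually.of_forall (fun x => ?_))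
  simp only
  rw [← mul_sub, Complex.sub_conj, ker_eq]
  have hpi : (Real.pi : ℂ) ≠ 0 := by exact_mod_cast Real.pi_ne_zero
  push_cast
  field_simp

section Interior

variable {P} (hCAU : ST_CAU.{0}) (hRES : ST_RES1)

include hCAU hRES

theorem cau_poly {r : ℝ} (h0 : 0 ≤ r) (h1 : r < 1) (b : P.X) (p : Polynomial ℂ) :
    P.Cau (zr P r b) (fun x => p.eval (P.gm x)) = p.eval (zr P r b) := by
  obtain ⟨Φ, hΦ, hΦg, -⟩ := hCAU P ℂ (zr P r b) (hRES P _ (zr_int P h0 h1 b))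
  have h2 := hΦ (Polynomial.aeval (⟨P.gmB, P.gmB_mem⟩ : P.Alg) p)
  rw [← Polynomial.aeval_algHom_apply, hΦg] at h2
  have h3 : (((Polynomial.aeval (⟨P.gmB, P.gmB_mem⟩ : P.Alg) p : P.Alg) : P.X →ᵇ ℂ) : P.X → ℂ) =
      fun x => p.eval (P.gm x) := by
    funext x
    have h4 : ((Polynomial.aeval (⟨P.gmB, P.gmB_mem⟩ : P.Alg) p : P.Alg) : P.X →ᵇ ℂ) =
        Polynomial.aeval P.gmB p := by
      have := Polynomial.aeval_algHom_apply P.Alg.val (⟨P.gmB, P.gmB_mem⟩ : P.Alg) p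
      exact this.symm
    rw [h4]
    let ev : (P.X →ᵇ ℂ) →ₐ[ℂ] ℂ :=
      { toFun := fun f => f x
        map_one' := rfl
        map_mul' := fun _ _ => rfl
        map_zero' := rfl
        map_add' := fun _ _ => rfl
        commutes' := fun _ => rfl }
    have := Polynomial.aeval_algHom_apply ev P.gmB p
    rw [show ev P.gmB = P.gm x from rfl] at this
    rw [show (Polynomial.aeval P.gmB p) x = ev (Polynomial.aeval P.gmB p) from rfl, ← this,
      ← Polynomial.coe_aeval_eq_eval]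
  rw [h3] at h2
  rw [← h2, ← Polynomial.coe_aeval_eq_eval]

theorem mass_two {r : ℝ} (h0 : 0 ≤ r) (h1 : r < 1) (b : P.X) :
    ∫ x, P.ker (zr P r b) x ∂P.ds = 2 := by
  have h2 := cau_poly hCAU hRES h0 h1 b (1 : Polynomial ℂ)
  simp only [Polynomial.eval_one] at h2
  have h3 := cau_conj_add P h0 h1 b (1 : P.X →ᵇ ℂ)
  have h4 : (fun x => (starRingEnd ℂ) ((1 : P.X →ᵇ ℂ) x)) = fun _ => (1 : ℂ) := by
    funext x
    rw [show (1 : P.X →ᵇ ℂ) x = 1 from rfl, map_one]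
  have h5 : ((1 : P.X →ᵇ ℂ) : P.X → ℂ) = fun _ => (1 : ℂ) := rfl
  rw [h4, h5, h2, map_one] at h3
  simp only [one_mul] at h3
  rw [integral_complex_ofReal] at h3
  have h6 : (((∫ x, P.ker (zr P r b) x ∂P.ds : ℝ)) : ℂ) = ((2 : ℝ) : ℂ) := by
    rw [← h3]; norm_num
  exact_mod_cast h6

end Interior

/-! ### The boundary kernel -/

theorem ker_meas (w : ℂ) : Measurable (P.ker w) := by
  have h1 : Measurable P.gm := (cont_gm P).measurable
  have h2 : Measurable P.dr := (cont_dr P).measurable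
  exact (Complex.measurable_im.comp (h2.div (h1.sub measurable_const))).div_const _

theorem int_Pm (hPM : ST_PM) (b : P.X) (φ : P.X → ℂ) :
    ∫ x, φ x ∂(P.Pm b) = ∫ x, φ x * ((P.ker (P.gm b) x : ℝ) : ℂ) ∂P.ds := by
  unfold CPoly.Pm
  rw [integral_withDensity_eq_integral_toReal_smul (ker_meas P _).ennreal_ofReal
    (Eventually.of_forall (fun _ => ENNReal.ofReal_lt_top))]
  refine integral_congr_ae (Eventually.of_forall (fun x => ?_))
  simp only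
  rw [ENNReal.toReal_ofReal ((hPM P).2.1 b x), Complex.real_smul, mul_comm]

theorem int_ker_b (hPM : ST_PM) (b : P.X) : Integrable (P.ker (P.gm b)) P.ds ∧
    ∫ x, P.ker (P.gm b) x ∂P.ds = 1 := by
  have h1 : ∫⁻ x, ENNReal.ofReal (P.ker (P.gm b) x) ∂P.ds = 1 := by
    have := ((hPM P).2.2 b).measure_univ
    unfold CPoly.Pm at this
    rwa [withDensity_apply _ MeasurableSet.univ, Measure.restrict_univ] at this
  have h2 : Integrable (P.ker (P.gm b)) P.ds := by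
    refine ⟨(ker_meas P _).aestronglyMeasurable, ?_⟩
    rw [hasFiniteIntegral_iff_ofReal (Eventually.of_forall (fun x => (hPM P).2.1 b x)), h1]
    exact ENNReal.one_lt_top
  refine ⟨h2, ?_⟩
  rw [integral_eq_lintegral_of_nonneg_ae (Eventually.of_forall (fun x => (hPM P).2.1 b x))
    (ker_meas P _).aestronglyMeasurable, h1, ENNReal.toReal_one]

theorem int_phi_ker_b (hPM : ST_PM) (b : P.X) (φ : P.X →ᵇ ℂ) :
    Integrable (fun x => φ x * ((P.ker (P.gm b) x : ℝ) : ℂ)) P.ds :=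
  ((int_ker_b P hPM b).1.ofReal).bdd_mul φ.continuous.aestronglyMeasurable
    (Eventually.of_forall (fun x => φ.norm_coe_le_norm x))

theorem poly_lip (p : Polynomial ℂ) (D : ℝ) : ∃ L : ℝ, 0 < L ∧
    (∀ z w : ℂ, ‖z‖ ≤ D → ‖w‖ ≤ D → ‖p.eval z - p.eval w‖ ≤ L * ‖z - w‖) ∧
    ∀ z : ℂ, ‖z‖ ≤ D → ‖p.eval z‖ ≤ L := by
  obtain ⟨L1, hL1⟩ := (isCompact_closedBall (0 : ℂ) D).exists_bound_of_continuousOn
    (p.derivative.continuous.continuousOn)
  obtain ⟨L2, hL2⟩ := (isCompact_closedBall (0 : ℂ) D).exists_bound_of_continuousOn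
    (p.continuous.continuousOn)
  refine ⟨max (max L1 L2) 1, by positivity, fun z w hz hw => ?_, fun z hz => ?_⟩
  · have := Convex.norm_image_sub_le_of_norm_deriv_le (f := fun z => p.eval z) (C := max (max L1 L2) 1)
      (s := Metric.closedBall (0 : ℂ) D) (x := w) (y := z) (fun x _ => p.differentiableAt)
      (fun x hx => by
        rw [Polynomial.deriv]
        exact (hL1 x hx).trans ((le_max_left _ _).trans (le_max_left _ _)))
      (convex_closedBall _ _) (by simpa using hw) (by simpa using hz)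
    exact this
  · exact (hL2 z (by simpa using hz)).trans ((le_max_right _ _).trans (le_max_left _ _))

/-- comparison of the two kernels -/
theorem ker_diff {r h S D : ℝ} (h1 : r < 1) (hh : 0 < h) (hS : ∀ x, ‖P.dr x‖ ≤ S)
    (hS0 : 0 < S) (b x : P.X) (hz : (1 - r) * (2 * D) ≤ h / 2) (hD0 : 0 < D)
    (hD1 : ‖P.z0‖ ≤ D) (hD2 : ∀ x, ‖P.gm x‖ ≤ D)
    (hx : h < ‖P.gm x - P.gm b‖) :
    |P.ker (zr P r b) x - P.ker (P.gm b) x| ≤ S * ((1 - r) * (2 * D)) / (h / 2 * h) := by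
  have e0 : ‖zr P r b - P.gm b‖ ≤ (1 - r) * (2 * D) := by
    have : zr P r b - P.gm b = ((1 - r : ℝ) : ℂ) * (P.z0 - P.gm b) := by
      rw [zr]; push_cast; ring
    rw [this, norm_mul, Complex.norm_real, Real.norm_eq_abs, abs_of_pos (sub_pos.2 h1)]
    refine mul_le_mul_of_nonneg_left ?_ (sub_pos.2 h1).le
    refine (norm_sub_le _ _).trans ?_
    linarith [hD2 b]
  have e1 : h / 2 ≤ ‖P.gm x - zr P r b‖ := by
    have h2 : ‖P.gm x - P.gm b‖ ≤ ‖P.gm x - zr P r b‖ + ‖zr P r b - P.gm b‖ := by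
      have : P.gm x - P.gm b = (P.gm x - zr P r b) + (zr P r b - P.gm b) := by ring
      rw [this]
      exact norm_add_le _ _
    linarith
  have n1 : P.gm x - zr P r b ≠ 0 := norm_pos_iff.1 (by linarith)
  have n2 : P.gm x - P.gm b ≠ 0 := norm_pos_iff.1 (by linarith)
  have e2 : P.ker (zr P r b) x - P.ker (P.gm b) x =
      (P.dr x * (zr P r b - P.gm b) / ((P.gm x - zr P r b) * (P.gm x - P.gm b))).im
        / Real.pi := by
    rw [ker_eq, ker_eq, ← sub_div, ← Complex.sub_im]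
    congr 2
    field_simp
    ring
  rw [e2, abs_div, abs_of_pos Real.pi_pos]
  have e3 : ‖P.dr x * (zr P r b - P.gm b) / ((P.gm x - zr P r b) * (P.gm x - P.gm b))‖ ≤
      S * ((1 - r) * (2 * D)) / (h / 2 * h) := by
    rw [norm_div, norm_mul, norm_mul]
    have h3 : 0 < h / 2 * h := by positivity
    refine div_le_div₀ ?_ (mul_le_mul (hS x) e0 (norm_nonneg _) hS0.le) h3
      (mul_le_mul e1 hx.le hh.le (norm_nonneg _))
    exact mul_nonneg hS0.le (mul_nonneg (sub_pos.2 h1).le (by positivity))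
  have h4 := (Complex.abs_im_le_norm
    (P.dr x * (zr P r b - P.gm b) / ((P.gm x - zr P r b) * (P.gm x - P.gm b)))).trans e3
  refine le_trans (div_le_self (abs_nonneg _) ?_) h4
  linarith [Real.pi_gt_three]

/-- the main estimate -/
theorem main_est (hCAU : ST_CAU.{0}) (hRES : ST_RES1) (hPM : ST_PM) (φ : P.X →ᵇ ℂ)
    (p : Polynomial ℂ) (hφ : ∀ x, φ x = p.eval (P.gm x)) {ε : ℝ} (hε : 0 < ε) :
    ∃ η : ℝ, 0 < η ∧ ∀ r : ℝ, 0 ≤ r → r < 1 → 1 - r < η → ∀ b : P.X,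
      ‖(starRingEnd ℂ) (P.Cau (zr P r b) (fun x => (starRingEnd ℂ) (φ x))) -
        ∫ x, φ x ∂(P.Pm b)‖ ≤ ε := by
  obtain ⟨D, hD, hD1, hD2⟩ := exists_D P
  obtain ⟨S, hS, hS'⟩ := exists_Sdr P
  obtain ⟨L, hL, hL1, hL2⟩ := poly_lip p D
  have hfin := fin_ds P
  set Λ : ℝ := P.ds.real Set.univ with hΛ
  have hΛ0 : 0 ≤ Λ := measureReal_nonneg
  set h : ℝ := ε / (9 * L) with hh
  have hh0 : 0 < h := by positivity
  set K : ℝ := 2 * L * (S * (2 * D) / (h / 2 * h)) * Λ + L * (2 * D) with hK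
  have hK0 : 0 < K := by positivity
  refine ⟨min (ε / (3 * K)) (h / (4 * D)), by positivity, fun r h0 h1 hr b => ?_⟩
  have hr1 : (1 - r) * K ≤ ε / 3 := by
    have := hr.le.trans (min_le_left _ _)
    rw [le_div_iff₀ (by positivity)] at this
    linarith
  have hr2 : (1 - r) * (2 * D) ≤ h / 2 := by
    have := hr.le.trans (min_le_right _ _)
    rw [le_div_iff₀ (by positivity)] at this
    linarith
  have hηr : 0 < 1 - r := sub_pos.2 h1
  -- the point `z_r` is in the disc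
  have hzr : ‖zr P r b‖ ≤ D := by
    have e : zr P r b = ((1 - r : ℝ) : ℂ) * P.z0 + (r : ℂ) * P.gm b := by
      rw [zr]; push_cast; ring
    rw [e]
    refine (norm_add_le _ _).trans ?_
    rw [norm_mul, norm_mul, Complex.norm_real, Complex.norm_real, Real.norm_eq_abs,
      Real.norm_eq_abs, abs_of_pos hηr, abs_of_nonneg h0]
    nlinarith [mul_le_mul_of_nonneg_left hD1 hηr.le, mul_le_mul_of_nonneg_left (hD2 b) h0]
  have hzb : ‖P.gm b - zr P r b‖ ≤ (1 - r) * (2 * D) := by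
    have : P.gm b - zr P r b = ((1 - r : ℝ) : ℂ) * (P.gm b - P.z0) := by
      rw [zr]; push_cast; ring
    rw [this, norm_mul, Complex.norm_real, Real.norm_eq_abs, abs_of_pos hηr]
    refine mul_le_mul_of_nonneg_left ?_ hηr.le
    refine (norm_sub_le _ _).trans ?_
    linarith [hD2 b]
  -- the algebraic identity
  have hcau := cau_conj_add P h0 h1 b φ
  have hφ' : (φ : P.X → ℂ) = fun x => p.eval (P.gm x) := funext hφ
  have hcp : P.Cau (zr P r b) φ = p.eval (zr P r b) := by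
    rw [hφ']; exact cau_poly hCAU hRES h0 h1 b p
  rw [hcp] at hcau
  obtain ⟨hk1, hk2⟩ := int_ker_b P hPM b
  have hm2 := mass_two hCAU hRES h0 h1 b
  have hkr : Integrable (P.ker (zr P r b)) P.ds := by
    by_contra hcon
    rw [integral_undef hcon] at hm2
    norm_num at hm2
  have id1 : (starRingEnd ℂ) (P.Cau (zr P r b) (fun x => (starRingEnd ℂ) (φ x))) -
      ∫ x, φ x ∂(P.Pm b) =
      ∫ x, (φ x - φ b) * ((P.ker (zr P r b) x - P.ker (P.gm b) x : ℝ) : ℂ) ∂P.ds +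
        (p.eval (P.gm b) - p.eval (zr P r b)) := by
    rw [int_Pm P hPM, eq_sub_of_add_eq hcau]
    have i1 := int_phi_ker P h0 h1 b φ
    have i2 := int_phi_ker_b P hPM b φ
    have i3 : Integrable (fun x => φ b * ((P.ker (zr P r b) x : ℝ) : ℂ)) P.ds :=
      hkr.ofReal.const_mul _
    have i4 : Integrable (fun x => φ b * ((P.ker (P.gm b) x : ℝ) : ℂ)) P.ds :=
      hk1.ofReal.const_mul _
    have e1 : ∫ x, (φ x - φ b) * ((P.ker (zr P r b) x - P.ker (P.gm b) x : ℝ) : ℂ) ∂P.ds =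
        (∫ x, φ x * ((P.ker (zr P r b) x : ℝ) : ℂ) ∂P.ds -
          ∫ x, φ x * ((P.ker (P.gm b) x : ℝ) : ℂ) ∂P.ds) -
        (∫ x, φ b * ((P.ker (zr P r b) x : ℝ) : ℂ) ∂P.ds -
          ∫ x, φ b * ((P.ker (P.gm b) x : ℝ) : ℂ) ∂P.ds) := by
      have i12 : Integrable (fun x => φ x * ((P.ker (zr P r b) x : ℝ) : ℂ) -
          φ x * ((P.ker (P.gm b) x : ℝ) : ℂ)) P.ds := i1.sub i2
      have i34 : Integrable (fun x => φ b * ((P.ker (zr P r b) x : ℝ) : ℂ) -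
          φ b * ((P.ker (P.gm b) x : ℝ) : ℂ)) P.ds := i3.sub i4
      rw [← integral_sub i1 i2, ← integral_sub i3 i4, ← integral_sub i12 i34]
      refine integral_congr_ae (Eventually.of_forall (fun x => ?_))
      simp only
      push_cast
      ring
    have e2 : ∫ x, φ b * ((P.ker (zr P r b) x : ℝ) : ℂ) ∂P.ds = φ b * 2 := by
      rw [integral_const_mul, integral_complex_ofReal, hm2]
      norm_num
    have e3 : ∫ x, φ b * ((P.ker (P.gm b) x : ℝ) : ℂ) ∂P.ds = φ b * 1 := by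
      rw [integral_const_mul, integral_complex_ofReal, hk2]
      norm_num
    rw [e1, e2, e3, hφ b]
    ring
  rw [id1]
  refine (norm_add_le _ _).trans ?_
  have b2 : ‖p.eval (P.gm b) - p.eval (zr P r b)‖ ≤ L * ((1 - r) * (2 * D)) :=
    (hL1 _ _ (hD2 b) hzr).trans (mul_le_mul_of_nonneg_left hzb hL.le)
  -- the integral
  set Cd : ℝ := S * ((1 - r) * (2 * D)) / (h / 2 * h) with hCd
  have hCd0 : 0 ≤ Cd := by
    rw [hCd]
    have : 0 ≤ (1 - r) * (2 * D) := mul_nonneg hηr.le (by positivity)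
    positivity
  have hpw : ∀ x, ‖(φ x - φ b) * ((P.ker (zr P r b) x - P.ker (P.gm b) x : ℝ) : ℂ)‖ ≤
      L * h * (P.ker (zr P r b) x + P.ker (P.gm b) x) + 2 * L * Cd := by
    intro x
    have k1 : 0 ≤ P.ker (zr P r b) x :=
      (hPM P).1 _ (fun j hj => (zr_int P h0 h1 b j hj).le) x
    have k2 : 0 ≤ P.ker (P.gm b) x := (hPM P).2.1 b x
    rw [norm_mul, Complex.norm_real, Real.norm_eq_abs]
    rcases le_or_gt ‖P.gm x - P.gm b‖ h with hc | hc
    · have f1 : ‖φ x - φ b‖ ≤ L * h := by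
        rw [hφ, hφ]
        exact (hL1 _ _ (hD2 x) (hD2 b)).trans (mul_le_mul_of_nonneg_left hc hL.le)
      have f2 : |P.ker (zr P r b) x - P.ker (P.gm b) x| ≤
          P.ker (zr P r b) x + P.ker (P.gm b) x := by
        rw [abs_le]
        constructor <;> linarith
      have f3 := mul_le_mul f1 f2 (abs_nonneg _) (by positivity)
      have f4 : 0 ≤ 2 * L * Cd := by positivity
      linarith
    · have f1 : ‖φ x - φ b‖ ≤ 2 * L := by
        rw [hφ, hφ]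
        refine (norm_sub_le _ _).trans ?_
        linarith [hL2 _ (hD2 x), hL2 _ (hD2 b)]
      have f2 := ker_diff P h1 hh0 hS' hS b x hr2 hD hD1 hD2 hc
      have f3 := mul_le_mul f1 f2 (abs_nonneg _) (by positivity)
      have f4 : 0 ≤ L * h * (P.ker (zr P r b) x + P.ker (P.gm b) x) := by positivity
      linarith
  have b1 : ‖∫ x, (φ x - φ b) * ((P.ker (zr P r b) x - P.ker (P.gm b) x : ℝ) : ℂ) ∂P.ds‖ ≤
      L * h * 3 + 2 * L * Cd * Λ := by
    have g0 : Integrable (fun x => L * h * (P.ker (zr P r b) x + P.ker (P.gm b) x)) P.ds :=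
      (hkr.add hk1).const_mul _
    have g1 : Integrable (fun x => L * h * (P.ker (zr P r b) x + P.ker (P.gm b) x) +
        2 * L * Cd) P.ds := g0.add (integrable_const _)
    refine (norm_integral_le_of_norm_le g1 (Eventually.of_forall hpw)).trans (le_of_eq ?_)
    rw [integral_add g0 (integrable_const _), integral_const_mul, integral_const]
    have g2 : ∫ x, (P.ker (zr P r b) x + P.ker (P.gm b) x) ∂P.ds = 3 := by
      rw [integral_add hkr hk1, hm2, hk2]; norm_num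
    rw [g2, smul_eq_mul, hΛ]
    ring
  have c1 : L * h * 3 = ε / 3 := by
    rw [hh]; field_simp; norm_num
  have c2 : 2 * L * Cd * Λ + L * ((1 - r) * (2 * D)) = (1 - r) * K := by
    rw [hK, hCd]; ring
  linarith

/-! ### The approximants -/

/-- the contracted element of a Banach algebra -/
def ar {A : Type*} [NormedRing A] [NormedAlgebra ℂ A] (r : ℝ) (a : A) : A :=
  algebraMap ℂ A P.z0 + (r : ℂ) • (a - algebraMap ℂ A P.z0)

/-- the inclusion of `Alg` followed by evaluation -/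
def ev (b : P.X) : P.Alg →L[ℂ] ℂ :=
  (BoundedContinuousFunction.evalCLM ℂ b).comp (P.Alg.toSubmodule.subtypeL)

theorem ev_apply (b : P.X) (f : P.Alg) : ev P b f = (f : P.X →ᵇ ℂ) b := rfl

theorem exists_G.{u} {r : ℝ} (h0 : 0 < r) (h1 : r < 1) (φ : P.X →ᵇ ℂ) :
    ∃ G : P.Alg, (∀ b, (G : P.X →ᵇ ℂ) b =
      P.Cau (zr P r b) (fun x => (starRingEnd ℂ) (φ x))) ∧
    ∀ (A : Type u) [NormedRing A] [NormedAlgebra ℂ A] [CompleteSpace A] (Φ : P.Alg →ₐ[ℂ] A),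
      (∃ C : ℝ, ∀ f : P.Alg, ‖Φ f‖ ≤ C * ‖f‖) →
      Φ G = P.Cau (ar P r (Φ ⟨P.gmB, P.gmB_mem⟩)) (fun x => (starRingEnd ℂ) (φ x)) := by
  obtain ⟨U, hUc, ⟨C, hC⟩, hU⟩ := exists_U P h0 h1
  obtain ⟨S, hS, hS'⟩ := exists_Sdr P
  have hci : Continuous (fun x => ((starRingEnd ℂ) (φ x) * P.dr x) • U x) :=
    ((Complex.continuous_conj.comp φ.continuous).mul (cont_dr P)).smul hUc
  have hint : Integrable (fun x => ((starRingEnd ℂ) (φ x) * P.dr x) • U x) P.ds := by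
    refine int_of_cont P hci (C := ‖φ‖ * S * C) (fun x => ?_)
    rw [norm_smul, norm_mul, Complex.norm_conj]
    exact mul_le_mul (mul_le_mul (φ.norm_coe_le_norm x) (hS' x) (norm_nonneg _)
      (norm_nonneg _)) (hC x) (norm_nonneg _) (by positivity)
  refine ⟨(2 * Real.pi * I : ℂ)⁻¹ • ∫ x, ((starRingEnd ℂ) (φ x) * P.dr x) • U x ∂P.ds,
    fun b => ?_, fun A _ _ _ Φ hΦ => ?_⟩
  · rw [← ev_apply, map_smul, ← ContinuousLinearMap.integral_comp_comm _ hint, cau_complex,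
      smul_eq_mul]
    congr 1
    refine integral_congr_ae (Eventually.of_forall (fun x => ?_))
    simp only
    rw [map_smul, ev_apply, hU, smul_eq_mul]
    ring
  · obtain ⟨C', hC'⟩ := hΦ
    let Ψ : P.Alg →L[ℂ] A := LinearMap.mkContinuous Φ.toLinearMap C' hC'
    have hΨ : ∀ f, Ψ f = Φ f := fun f => rfl
    rw [← hΨ, map_smul, ← ContinuousLinearMap.integral_comp_comm _ hint, CPoly.Cau]
    congr 1
    refine integral_congr_ae (Eventually.of_forall (fun x => ?_))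
    simp only
    rw [map_smul, hΨ]
    congr 1
    -- the inverse
    let gA : P.Alg := ⟨P.gmB, P.gmB_mem⟩
    let V : P.Alg := algebraMap ℂ P.Alg (P.gm x) -
      (algebraMap ℂ P.Alg P.z0 + (r : ℂ) • (gA - algebraMap ℂ P.Alg P.z0))
    have hV : ∀ b, (V : P.X →ᵇ ℂ) b = P.gm x - zr P r b := fun b => rfl
    have hne : ∀ b, P.gm x - zr P r b ≠ 0 := by
      intro b
      obtain ⟨δ, hδ, hlow⟩ := exists_low P
      have hd : 0 < (1 - r) * δ := mul_pos (sub_pos.2 h1) hδ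
      exact norm_pos_iff.1 (lt_of_lt_of_le hd (hlow r h0.le h1 b x))
    have hVU : V * U x = 1 := by
      apply Subtype.ext
      ext b
      show (V : P.X →ᵇ ℂ) b * ((U x : P.Alg) : P.X →ᵇ ℂ) b = 1
      rw [hV, hU, mul_inv_cancel₀ (hne b)]
    have hUV : U x * V = 1 := by rw [mul_comm, hVU]
    have hΦV : Φ V = algebraMap ℂ A (P.gm x) - ar P r (Φ gA) := by
      simp only [V, ar, map_sub, map_add, map_smul, AlgHom.commutes]
    have e1 : (algebraMap ℂ A (P.gm x) - ar P r (Φ gA)) * Φ (U x) = 1 := by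
      rw [← hΦV, ← map_mul, hVU, map_one]
    have e2 : Φ (U x) * (algebraMap ℂ A (P.gm x) - ar P r (Φ gA)) = 1 := by
      rw [← hΦV, ← map_mul, hUV, map_one]
    let u : Aˣ := ⟨_, Φ (U x), e1, e2⟩
    have h4 : Ring.inverse (u : A) = ((u⁻¹ : Aˣ) : A) := Ring.inverse_unit u
    exact h4.symm

/-! ### Convergence -/

theorem al_contr (hPM : ST_PM) {φ₁ φ₂ ψ₁ ψ₂ : P.X →ᵇ ℂ} (h1 : P.IsAl φ₁ ψ₁)
    (h2 : P.IsAl φ₂ ψ₂) : ‖ψ₁ - ψ₂‖ ≤ ‖φ₁ - φ₂‖ := by
  rw [BoundedContinuousFunction.norm_le (norm_nonneg _)]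
  intro b
  have hp := (hPM P).2.2 b
  have i1 : ∀ φ : P.X →ᵇ ℂ, Integrable (fun x => φ x) (P.Pm b) := fun φ =>
    Integrable.of_bound φ.continuous.aestronglyMeasurable ‖φ‖
      (Eventually.of_forall (fun x => φ.norm_coe_le_norm x))
  rw [BoundedContinuousFunction.sub_apply, h1 b, h2 b, ← map_sub, Complex.norm_conj,
    ← integral_sub (i1 φ₁) (i1 φ₂)]
  refine (norm_integral_le_of_norm_le_const (C := ‖φ₁ - φ₂‖) (Eventually.of_forall (fun x => ?_))).trans ?_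
  · exact (φ₁ - φ₂).norm_coe_le_norm x
  · simp

/-- the radii -/
def rn (n : ℕ) : ℝ := 1 - 1 / ((n : ℝ) + 2)

theorem rn_pos (n : ℕ) : 0 < rn n := by
  have : (0 : ℝ) < (n : ℝ) + 2 := by positivity
  unfold rn
  rw [sub_pos, div_lt_one this]
  linarith [Nat.cast_nonneg (α := ℝ) n]

theorem rn_lt (n : ℕ) : rn n < 1 := by
  have : (0 : ℝ) < (n : ℝ) + 2 := by positivity
  unfold rn
  linarith [one_div_pos.2 this]

theorem rn_tendsto : Tendsto (fun n => 1 - rn n) atTop (𝓝 0) := by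
  have h : (fun n : ℕ => 1 - rn n) = fun n : ℕ => 1 / (((n + 1 : ℕ) : ℝ) + 1) := by
    funext n
    unfold rn
    push_cast
    ring
  rw [h]
  exact (tendsto_add_atTop_iff_nat (f := fun n : ℕ => 1 / ((n : ℝ) + 1)) 1).2
    tendsto_one_div_add_atTop_nhds_zero_nat

/-- polynomials in the coordinate -/
def pol (p : Polynomial ℂ) : P.Alg := Polynomial.aeval (⟨P.gmB, P.gmB_mem⟩ : P.Alg) p

theorem pol_apply (p : Polynomial ℂ) (x : P.X) : ((pol P p : P.Alg) : P.X →ᵇ ℂ) x =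
    p.eval (P.gm x) := by
  have := Polynomial.aeval_algHom_apply
    ((({ toFun := fun f => f x
         map_one' := rfl
         map_mul' := fun _ _ => rfl
         map_zero' := rfl
         map_add' := fun _ _ => rfl
         commutes' := fun _ => rfl } : (P.X →ᵇ ℂ) →ₐ[ℂ] ℂ)).comp P.Alg.val)
    (⟨P.gmB, P.gmB_mem⟩ : P.Alg) p
  rw [← Polynomial.coe_aeval_eq_eval]
  exact this.symm

theorem pol_dense (f : P.Alg) {ε : ℝ} (hε : 0 < ε) : ∃ p : Polynomial ℂ, ‖f - pol P p‖ < ε := by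
  have h1 : (f : P.X →ᵇ ℂ) ∈ closure ((Algebra.adjoin ℂ {P.gmB} : Subalgebra ℂ (P.X →ᵇ ℂ)) :
      Set (P.X →ᵇ ℂ)) := by
    have := f.2
    unfold CPoly.Alg at this
    rwa [← SetLike.mem_coe, Subalgebra.topologicalClosure_coe] at this
  rw [Metric.mem_closure_iff] at h1
  obtain ⟨g, hg, hfg⟩ := h1 ε hε
  rw [SetLike.mem_coe, Algebra.adjoin_singleton_eq_range_aeval] at hg
  obtain ⟨p, hp⟩ := hg
  refine ⟨p, ?_⟩
  rw [dist_eq_norm] at hfg
  have h2 : ((pol P p : P.Alg) : P.X →ᵇ ℂ) = g := by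
    rw [← hp]
    exact (Polynomial.aeval_algHom_apply P.Alg.val (⟨P.gmB, P.gmB_mem⟩ : P.Alg) p).symm
  show ‖(f : P.X →ᵇ ℂ) - ((pol P p : P.Alg) : P.X →ᵇ ℂ)‖ < ε
  rw [h2]
  exact hfg

/-- polynomials: the companion is the limit of the approximants -/
theorem pol_al (hCAU : ST_CAU.{0}) (hRES : ST_RES1) (hPM : ST_PM) (p : Polynomial ℂ)
    (G : ℕ → P.Alg) (hG : ∀ n b, (G n : P.X →ᵇ ℂ) b =
      P.Cau (zr P (rn n) b) (fun x => (starRingEnd ℂ) ((pol P p : P.X →ᵇ ℂ) x))) :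
    ∃ ψ : P.Alg, P.IsAl (pol P p) ψ ∧ Tendsto G atTop (𝓝 ψ) := by
  have key : ∀ ε : ℝ, 0 < ε → ∃ n0 : ℕ, ∀ n ≥ n0, ∀ b : P.X,
      ‖(starRingEnd ℂ) ((G n : P.X →ᵇ ℂ) b) - ∫ x, (pol P p : P.X →ᵇ ℂ) x ∂(P.Pm b)‖ ≤ ε := by
    intro ε hε
    obtain ⟨η, hη, h⟩ := main_est P hCAU hRES hPM (pol P p) p (pol_apply P p) hε
    obtain ⟨n0, hn0⟩ := eventually_atTop.1 (rn_tendsto.eventually_lt_const hη)
    refine ⟨n0, fun n hn b => ?_⟩
    rw [hG]
    exact h (rn n) (rn_pos n).le (rn_lt n) (hn0 n hn) b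
  have hcs : CauchySeq G := by
    rw [Metric.cauchySeq_iff']
    intro ε hε
    obtain ⟨n0, hn0⟩ := key (ε / 4) (by positivity)
    refine ⟨n0, fun n hn => ?_⟩
    rw [dist_eq_norm]
    refine lt_of_le_of_lt (b := ε / 2) ?_ (by linarith)
    show ‖(G n : P.X →ᵇ ℂ) - (G n0 : P.X →ᵇ ℂ)‖ ≤ ε / 2
    rw [BoundedContinuousFunction.norm_le (by positivity)]
    intro b
    rw [BoundedContinuousFunction.sub_apply, ← Complex.norm_conj, map_sub]
    have e : (starRingEnd ℂ) ((G n : P.X →ᵇ ℂ) b) - (starRingEnd ℂ) ((G n0 : P.X →ᵇ ℂ) b) =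
        ((starRingEnd ℂ) ((G n : P.X →ᵇ ℂ) b) - ∫ x, (pol P p : P.X →ᵇ ℂ) x ∂(P.Pm b)) -
        ((starRingEnd ℂ) ((G n0 : P.X →ᵇ ℂ) b) - ∫ x, (pol P p : P.X →ᵇ ℂ) x ∂(P.Pm b)) := by
      ring
    rw [e]
    refine (norm_sub_le _ _).trans ?_
    linarith [hn0 n hn b, hn0 n0 le_rfl b]
  obtain ⟨ψ, hψ⟩ := cauchySeq_tendsto_of_complete hcs
  refine ⟨ψ, fun b => ?_, hψ⟩
  have t1 : Tendsto (fun n => (starRingEnd ℂ) ((G n : P.X →ᵇ ℂ) b)) atTop
      (𝓝 ((starRingEnd ℂ) ((ψ : P.X →ᵇ ℂ) b))) :=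
    (Complex.continuous_conj.tendsto _).comp (((ev P b).continuous.tendsto ψ).comp hψ)
  have t2 : Tendsto (fun n => (starRingEnd ℂ) ((G n : P.X →ᵇ ℂ) b)) atTop
      (𝓝 (∫ x, (pol P p : P.X →ᵇ ℂ) x ∂(P.Pm b))) := by
    rw [Metric.tendsto_atTop]
    intro ε hε
    obtain ⟨n0, hn0⟩ := key (ε / 2) (by positivity)
    refine ⟨n0, fun n hn => ?_⟩
    rw [dist_eq_norm]
    exact lt_of_le_of_lt (hn0 n hn b) (by linarith)
  have h3 := tendsto_nhds_unique t1 t2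
  rw [← h3, Complex.conj_conj]

theorem exists_al (hCAU : ST_CAU.{0}) (hRES : ST_RES1) (hPM : ST_PM) (φ : P.Alg) :
    ∃ ψ : P.Alg, P.IsAl φ ψ := by
  choose p hp using fun n : ℕ => pol_dense P φ (ε := 1 / ((n : ℝ) + 1)) (by positivity)
  have h1 : ∀ n, ∃ ψ : P.Alg, P.IsAl (pol P (p n)) ψ := by
    intro n
    choose G hG _ using fun k : ℕ => exists_G.{0} P (rn_pos k) (rn_lt k) (pol P (p n))
    obtain ⟨ψ, hψ, -⟩ := pol_al P hCAU hRES hPM (p n) G hG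
    exact ⟨ψ, hψ⟩
  choose ψ hψ using h1
  have ht : Tendsto (fun n => pol P (p n)) atTop (𝓝 φ) := by
    rw [tendsto_iff_norm_sub_tendsto_zero]
    refine squeeze_zero (fun _ => norm_nonneg _) (fun n => ?_)
      tendsto_one_div_add_atTop_nhds_zero_nat
    rw [norm_sub_rev]
    exact (hp n).le
  have hcs : CauchySeq ψ := by
    have h2 := ht.cauchySeq
    rw [Metric.cauchySeq_iff'] at h2 ⊢
    intro ε hε
    obtain ⟨n0, hn0⟩ := h2 ε hε
    refine ⟨n0, fun n hn => lt_of_le_of_lt ?_ (hn0 n hn)⟩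
    rw [dist_eq_norm, dist_eq_norm]
    exact al_contr P hPM (hψ n) (hψ n0)
  obtain ⟨ψ', hψ'⟩ := cauchySeq_tendsto_of_complete hcs
  refine ⟨ψ', fun b => ?_⟩
  have hpb := (hPM P).2.2 b
  have t1 : Tendsto (fun n => (ψ n : P.X →ᵇ ℂ) b) atTop (𝓝 ((ψ' : P.X →ᵇ ℂ) b)) :=
    ((ev P b).continuous.tendsto ψ').comp hψ'
  have t2 : Tendsto (fun n => (ψ n : P.X →ᵇ ℂ) b) atTop
      (𝓝 ((starRingEnd ℂ) (∫ x, (φ : P.X →ᵇ ℂ) x ∂(P.Pm b)))) := by
    have h3 : ∀ n, (ψ n : P.X →ᵇ ℂ) b =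
        (starRingEnd ℂ) (∫ x, (pol P (p n) : P.X →ᵇ ℂ) x ∂(P.Pm b)) := fun n => hψ n b
    refine Tendsto.congr (fun n => (h3 n).symm) ?_
    refine (Complex.continuous_conj.tendsto _).comp ?_
    have i1 : ∀ φ : P.X →ᵇ ℂ, Integrable (fun x => φ x) (P.Pm b) := fun φ =>
      Integrable.of_bound φ.continuous.aestronglyMeasurable ‖φ‖
        (Eventually.of_forall (fun x => φ.norm_coe_le_norm x))
    rw [tendsto_iff_norm_sub_tendsto_zero]
    have h4 := tendsto_iff_norm_sub_tendsto_zero.1 ht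
    refine squeeze_zero (fun _ => norm_nonneg _) (fun n => ?_) h4
    rw [← integral_sub (i1 _) (i1 _)]
    refine (norm_integral_le_of_norm_le_const (C := ‖pol P (p n) - φ‖)
      (Eventually.of_forall (fun x => ?_))).trans ?_
    · exact ((pol P (p n) : P.X →ᵇ ℂ) - (φ : P.X →ᵇ ℂ)).norm_coe_le_norm x
    · rw [probReal_univ, mul_one]
  exact tendsto_nhds_unique t1 t2

/-! ### Cauchy integrals in a Banach algebra -/

section Alg

variable {A : Type*} [NormedRing A] [NormedAlgebra ℂ A]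

theorem res_facts {a : A} (h : P.ResOK a) : ∃ C : ℝ, 0 ≤ C ∧ ∀ r : ℝ, 0 ≤ r → r ≤ 1 → ∀ x : P.X,
    IsUnit (algebraMap ℂ A (P.gm x) - ar P r a) ∧
      ‖Ring.inverse (algebraMap ℂ A (P.gm x) - ar P r a)‖ ≤ C := by
  obtain ⟨C, hC⟩ := h
  refine ⟨max C 0, le_max_right _ _, fun r h0 h1 x => ?_⟩
  obtain ⟨e1, e2⟩ := hC r h0 h1 x.1 x.1.2 (x.2 : ℝ) x.2.2.1.le x.2.2.2.le
  exact ⟨e1, e2.trans (le_max_left _ _)⟩

theorem ar_one (a : A) : ar P 1 a = a := by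
  rw [ar, Complex.ofReal_one, one_smul]
  abel

theorem inv_cont [CompleteSpace A] {a : A} (h : P.ResOK a) {r : ℝ} (h0 : 0 ≤ r) (h1 : r ≤ 1) :
    Continuous (fun x => Ring.inverse (algebraMap ℂ A (P.gm x) - ar P r a)) := by
  obtain ⟨C, -, hC⟩ := res_facts P h
  rw [continuous_iff_continuousAt]
  intro x
  obtain ⟨u, hu⟩ := (hC r h0 h1 x).1
  have e1 := NormedRing.inverse_continuousAt u
  rw [hu] at e1
  have e2 : ContinuousAt (fun x => algebraMap ℂ A (P.gm x) - ar P r a) x :=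
    (((algebraMapCLM ℂ A).continuous.comp (cont_gm P)).sub continuous_const).continuousAt
  exact ContinuousAt.comp (f := fun x => algebraMap ℂ A (P.gm x) - ar P r a) e1 e2

theorem inv_diff {a : A} {C : ℝ} (hC0 : 0 ≤ C)
    (hC : ∀ r : ℝ, 0 ≤ r → r ≤ 1 → ∀ x : P.X,
      IsUnit (algebraMap ℂ A (P.gm x) - ar P r a) ∧
      ‖Ring.inverse (algebraMap ℂ A (P.gm x) - ar P r a)‖ ≤ C) {r : ℝ} (h0 : 0 ≤ r) (h1 : r ≤ 1)
    (x : P.X) :
    ‖Ring.inverse (algebraMap ℂ A (P.gm x) - ar P r a) -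
      Ring.inverse (algebraMap ℂ A (P.gm x) - ar P 1 a)‖ ≤
      C * ((1 - r) * ‖a - algebraMap ℂ A P.z0‖) * C := by
  obtain ⟨⟨u, hu⟩, e1⟩ := hC r h0 h1 x
  obtain ⟨⟨v, hv⟩, e2⟩ := hC 1 zero_le_one le_rfl x
  rw [← hu, Ring.inverse_unit] at e1 ⊢
  rw [← hv, Ring.inverse_unit] at e2 ⊢
  have e3 : ((u⁻¹ : Aˣ) : A) - ((v⁻¹ : Aˣ) : A) = ((u⁻¹ : Aˣ) : A) * ((v : A) - u) *
      ((v⁻¹ : Aˣ) : A) := by
    rw [mul_sub, sub_mul, Units.mul_inv_cancel_right, Units.inv_mul, one_mul]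
  have e4 : (v : A) - u = -(((1 - r : ℝ) : ℂ) • (a - algebraMap ℂ A P.z0)) := by
    rw [hu, hv, ar, ar]
    push_cast
    rw [sub_smul, one_smul]
    abel
  rw [e3, e4]
  refine (norm_mul_le _ _).trans ?_
  refine mul_le_mul ?_ e2 (norm_nonneg _) (by positivity [sub_nonneg.2 h1])
  refine (norm_mul_le _ _).trans ?_
  rw [norm_neg, norm_smul, Complex.norm_real, Real.norm_eq_abs, abs_of_nonneg (sub_nonneg.2 h1)]
  exact mul_le_mul_of_nonneg_right e1 (mul_nonneg (sub_nonneg.2 h1) (norm_nonneg _))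

/-- The Cauchy integral is Lipschitz in the function. -/
theorem cau_lip [CompleteSpace A] {a : A} (h : P.ResOK a) : ∃ C : ℝ, 0 ≤ C ∧
    ∀ χ₁ χ₂ : P.X → ℂ, Continuous χ₁ → Continuous χ₂ → (∃ B, ∀ x, ‖χ₁ x‖ ≤ B) →
      (∃ B, ∀ x, ‖χ₂ x‖ ≤ B) → ∀ t : ℝ, (∀ x, ‖χ₁ x - χ₂ x‖ ≤ t) →
      ‖P.Cau a χ₁ - P.Cau a χ₂‖ ≤ C * t := by
  obtain ⟨C, hC0, hC⟩ := res_facts P h
  obtain ⟨S, hS, hS'⟩ := exists_Sdr P
  have hfin := fin_ds P
  have hcont := inv_cont P h zero_le_one le_rfl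
  have hC1 := hC 1 zero_le_one le_rfl
  rw [ar_one] at hcont
  simp only [ar_one] at hC1
  have hi : ∀ χ : P.X → ℂ, Continuous χ → (∃ B, ∀ x, ‖χ x‖ ≤ B) →
      Integrable (fun x => (χ x * P.dr x) • Ring.inverse (algebraMap ℂ A (P.gm x) - a)) P.ds := by
    rintro χ hχ ⟨B, hB⟩
    refine int_of_cont P ((hχ.mul (cont_dr P)).smul hcont) (C := B * S * C) (fun x => ?_)
    have hB0 : 0 ≤ B := (norm_nonneg _).trans (hB x)
    rw [norm_smul, norm_mul]
    exact mul_le_mul (mul_le_mul (hB x) (hS' x) (norm_nonneg _) hB0) (hC1 x).2 (norm_nonneg _)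
      (mul_nonneg hB0 hS.le)
  refine ⟨‖(2 * Real.pi * I : ℂ)⁻¹‖ * (S * C * P.ds.real Set.univ), by positivity,
    fun χ₁ χ₂ h1 h2 hb1 hb2 t ht => ?_⟩
  rw [CPoly.Cau, CPoly.Cau, ← smul_sub, ← integral_sub (hi χ₁ h1 hb1) (hi χ₂ h2 hb2), norm_smul]
  have e2 : ‖(2 * Real.pi * I : ℂ)⁻¹‖ * (S * C * P.ds.real Set.univ) * t =
      ‖(2 * Real.pi * I : ℂ)⁻¹‖ * (t * S * C * P.ds.real Set.univ) := by ring
  rw [e2]
  refine mul_le_mul_of_nonneg_left ?_ (norm_nonneg _)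
  have hpw : ∀ x, ‖(χ₁ x * P.dr x) • Ring.inverse (algebraMap ℂ A (P.gm x) - a) -
      (χ₂ x * P.dr x) • Ring.inverse (algebraMap ℂ A (P.gm x) - a)‖ ≤ t * S * C := by
    intro x
    have ht0 : 0 ≤ t := (norm_nonneg _).trans (ht x)
    rw [← sub_smul, ← sub_mul, norm_smul, norm_mul]
    exact mul_le_mul (mul_le_mul (ht x) (hS' x) (norm_nonneg _) ht0) (hC1 x).2 (norm_nonneg _)
      (mul_nonneg ht0 hS.le)
  exact norm_integral_le_of_norm_le_const (μ := P.ds) (Eventually.of_forall hpw)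

/-- The Cauchy integral at the contracted elements converges. -/
theorem cau_tendsto [CompleteSpace A] {a : A} (h : P.ResOK a) (χ : P.X → ℂ) (hχ : Continuous χ)
    {B : ℝ} (hB : ∀ x, ‖χ x‖ ≤ B) :
    Tendsto (fun n => P.Cau (ar P (rn n) a) χ) atTop (𝓝 (P.Cau a χ)) := by
  obtain ⟨C, hC0, hC⟩ := res_facts P h
  obtain ⟨S, hS, hS'⟩ := exists_Sdr P
  have hfin := fin_ds P
  have hi : ∀ r : ℝ, 0 ≤ r → r ≤ 1 → Integrable (fun x => (χ x * P.dr x) •
      Ring.inverse (algebraMap ℂ A (P.gm x) - ar P r a)) P.ds := by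
    intro r h0 h1
    refine int_of_cont P ((hχ.mul (cont_dr P)).smul (inv_cont P h h0 h1)) (C := B * S * C)
      (fun x => ?_)
    have hB0 : 0 ≤ B := (norm_nonneg _).trans (hB x)
    rw [norm_smul, norm_mul]
    exact mul_le_mul (mul_le_mul (hB x) (hS' x) (norm_nonneg _) hB0) (hC r h0 h1 x).2
      (norm_nonneg _) (mul_nonneg hB0 hS.le)
  rw [tendsto_iff_norm_sub_tendsto_zero]
  have key : ∀ n, ‖P.Cau (ar P (rn n) a) χ - P.Cau a χ‖ ≤ (1 - rn n) *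
      (‖(2 * Real.pi * I : ℂ)⁻¹‖ * (|B| * S * (C * ‖a - algebraMap ℂ A P.z0‖ * C) *
        P.ds.real Set.univ)) := by
    intro n
    have h0 := (rn_pos n).le
    have h1 := (rn_lt n).le
    have e1 : P.Cau a χ = (2 * Real.pi * I : ℂ)⁻¹ • ∫ x, (χ x * P.dr x) •
        Ring.inverse (algebraMap ℂ A (P.gm x) - ar P 1 a) ∂P.ds := by
      rw [ar_one, CPoly.Cau]
    rw [e1, CPoly.Cau, ← smul_sub, ← integral_sub (hi _ h0 h1) (hi 1 zero_le_one le_rfl),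
      norm_smul]
    have e2 : (1 - rn n) * (‖(2 * Real.pi * I : ℂ)⁻¹‖ * (|B| * S *
        (C * ‖a - algebraMap ℂ A P.z0‖ * C) * P.ds.real Set.univ)) =
        ‖(2 * Real.pi * I : ℂ)⁻¹‖ * ((|B| * S *
          (C * ((1 - rn n) * ‖a - algebraMap ℂ A P.z0‖) * C)) * P.ds.real Set.univ) := by ring
    rw [e2]
    refine mul_le_mul_of_nonneg_left ?_ (norm_nonneg _)
    refine norm_integral_le_of_norm_le_const (Eventually.of_forall (fun x => ?_))
    rw [← smul_sub, norm_smul, norm_mul]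
    exact mul_le_mul (mul_le_mul ((hB x).trans (le_abs_self _)) (hS' x) (norm_nonneg _)
      (abs_nonneg _)) (inv_diff P hC0 hC h0 h1 x) (norm_nonneg _) (by positivity)
  refine squeeze_zero (fun _ => norm_nonneg _) key ?_
  have h3 := rn_tendsto.mul_const (‖(2 * Real.pi * I : ℂ)⁻¹‖ * (|B| * S *
    (C * ‖a - algebraMap ℂ A P.z0‖ * C) * P.ds.real Set.univ))
  rwa [zero_mul] at h3

end Alg

/-- the Cauchy integrals of the companion -/
theorem cau_al.{u} (hCAU0 : ST_CAU.{0}) (hCAU : ST_CAU.{u}) (hRES : ST_RES1) (hPM : ST_PM)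
    (A : Type u) [NormedRing A] [NormedAlgebra ℂ A] [CompleteSpace A] [NormOneClass A] (a : A)
    (ha : P.ResOK a) (φ ψ : P.Alg) (h : P.IsAl φ ψ) :
    P.Cau a (ψ : P.X →ᵇ ℂ) = P.Cau a (fun x => (starRingEnd ℂ) ((φ : P.X →ᵇ ℂ) x)) := by
  obtain ⟨C, hC0, hC⟩ := cau_lip P ha
  -- polynomials
  have hpol : ∀ p : Polynomial ℂ, ∃ ψ' : P.Alg, P.IsAl (pol P p) ψ' ∧
      P.Cau a (ψ' : P.X →ᵇ ℂ) =
        P.Cau a (fun x => (starRingEnd ℂ) ((pol P p : P.X →ᵇ ℂ) x)) := by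
    intro p
    choose G hG hG2 using fun k : ℕ => exists_G.{u} P (rn_pos k) (rn_lt k) (pol P p)
    obtain ⟨ψ', hψ1, hψ2⟩ := pol_al P hCAU0 hRES hPM p G hG
    refine ⟨ψ', hψ1, ?_⟩
    obtain ⟨Φ, hΦ, hΦg, hΦb⟩ := hCAU P A a ha
    obtain ⟨C', hC'⟩ := hΦb
    let Ψ : P.Alg →L[ℂ] A := LinearMap.mkContinuous Φ.toLinearMap C' hC'
    have t1 : Tendsto (fun n => Ψ (G n)) atTop (𝓝 (Ψ ψ')) := (Ψ.continuous.tendsto ψ').comp hψ2
    have t2 : Tendsto (fun n => Ψ (G n)) atTop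
        (𝓝 (P.Cau a (fun x => (starRingEnd ℂ) ((pol P p : P.X →ᵇ ℂ) x)))) := by
      have e : ∀ n, Ψ (G n) = P.Cau (ar P (rn n) a)
          (fun x => (starRingEnd ℂ) ((pol P p : P.X →ᵇ ℂ) x)) := by
        intro n
        have := hG2 n A Φ ⟨C', hC'⟩
        rw [hΦg] at this
        exact this
      refine Tendsto.congr (fun n => (e n).symm) ?_
      refine cau_tendsto P ha _ (Complex.continuous_conj.comp (pol P p : P.X →ᵇ ℂ).continuous)
        (B := ‖(pol P p : P.X →ᵇ ℂ)‖) (fun x => ?_)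
      rw [Complex.norm_conj]
      exact (pol P p : P.X →ᵇ ℂ).norm_coe_le_norm x
    have h3 := tendsto_nhds_unique t1 t2
    rw [← h3]
    exact (hΦ ψ').symm
  -- density
  have key : ∀ ε : ℝ, 0 < ε →
      ‖P.Cau a (ψ : P.X →ᵇ ℂ) - P.Cau a (fun x => (starRingEnd ℂ) ((φ : P.X →ᵇ ℂ) x))‖ ≤
        2 * C * ε := by
    intro ε hε
    obtain ⟨p, hp⟩ := pol_dense P φ hε
    obtain ⟨ψ', h1, h2⟩ := hpol p
    have hp' : ‖(φ : P.X →ᵇ ℂ) - (pol P p : P.X →ᵇ ℂ)‖ ≤ ε := hp.le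
    have h3 : ‖(ψ : P.X →ᵇ ℂ) - (ψ' : P.X →ᵇ ℂ)‖ ≤ ε := (al_contr P hPM h h1).trans hp'
    have b1 : ∀ f : P.X →ᵇ ℂ, ∃ B, ∀ x, ‖f x‖ ≤ B := fun f => ⟨‖f‖, f.norm_coe_le_norm⟩
    have b2 : ∀ f : P.X →ᵇ ℂ, ∃ B, ∀ x, ‖(starRingEnd ℂ) (f x)‖ ≤ B := fun f =>
      ⟨‖f‖, fun x => by rw [Complex.norm_conj]; exact f.norm_coe_le_norm x⟩
    have e1 := hC (ψ : P.X →ᵇ ℂ) (ψ' : P.X →ᵇ ℂ) (ψ : P.X →ᵇ ℂ).continuous
      (ψ' : P.X →ᵇ ℂ).continuous (b1 _) (b1 _) ε (fun x =>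
        (((ψ : P.X →ᵇ ℂ) - (ψ' : P.X →ᵇ ℂ)).norm_coe_le_norm x).trans h3)
    have e2 := hC (fun x => (starRingEnd ℂ) ((pol P p : P.X →ᵇ ℂ) x))
      (fun x => (starRingEnd ℂ) ((φ : P.X →ᵇ ℂ) x))
      (Complex.continuous_conj.comp (pol P p : P.X →ᵇ ℂ).continuous)
      (Complex.continuous_conj.comp (φ : P.X →ᵇ ℂ).continuous) (b2 _) (b2 _) ε (fun x => by
        rw [← map_sub, Complex.norm_conj, norm_sub_rev]
        exact (((φ : P.X →ᵇ ℂ) - (pol P p : P.X →ᵇ ℂ)).norm_coe_le_norm x).trans hp')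
    have e3 : P.Cau a (ψ : P.X →ᵇ ℂ) -
        P.Cau a (fun x => (starRingEnd ℂ) ((φ : P.X →ᵇ ℂ) x)) =
        (P.Cau a (ψ : P.X →ᵇ ℂ) - P.Cau a (ψ' : P.X →ᵇ ℂ)) +
        (P.Cau a (fun x => (starRingEnd ℂ) ((pol P p : P.X →ᵇ ℂ) x)) -
          P.Cau a (fun x => (starRingEnd ℂ) ((φ : P.X →ᵇ ℂ) x))) := by
      rw [h2]; abel
    rw [e3]
    refine (norm_add_le _ _).trans ?_
    linarith
  rw [← sub_eq_zero, ← norm_le_zero_iff]
  refine le_of_forall_pos_le_add (fun ε hε => ?_)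
  rw [zero_add]
  have h4 := key (ε / (2 * C + 1)) (by positivity)
  refine h4.trans ?_
  rw [mul_div_assoc', div_le_iff₀ (by positivity)]
  nlinarith

end

end Pool.Agent.Helper78.CP

open Pool.Agent.Helper51.CP Pool.Agent.Helper51.CP.CPoly in
/-- **ALF** -/
theorem Pool.Agent.Helper78.CP.st_ALF.{u} (hCAU0 : ST_CAU.{0}) (hCAU : ST_CAU.{u})
    (hRES : ST_RES1) (hPM : ST_PM) : ST_ALF.{u} := by
  intro P
  refine ⟨fun φ hφ => ?_, fun A _ _ _ _ a ha φ hφ ψ hψ h => ?_⟩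
  · obtain ⟨ψ, hψ⟩ := Pool.Agent.Helper78.CP.exists_al P hCAU0 hRES hPM ⟨φ, hφ⟩
    exact ⟨ψ, ψ.2, hψ⟩
  · exact Pool.Agent.Helper78.CP.cau_al P hCAU0 hCAU hRES hPM A a ha ⟨φ, hφ⟩ ⟨ψ, hψ⟩ h
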